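import Pool.Agent.H487.GA.Stm2

/-!
# A holomorphic function is controlled by its imaginary part in a cone (task CONE of project GA; helper980)
-/

set_option autoImplicit false

open Finset Complex Filter Topology Metric Set MeasureTheory

namespace Pool.Agent.H980.GA

open Pool.Agent.H487.GA

/-- the vertical line -/
noncomputable def gm (x y : ℝ) : ℂ := (x : ℂ) - (y : ℂ) * I

lemma gm_re (x y : ℝ) : (gm x y).re = x := by simp [gm]

lemma gm_im (x y : ℝ) : (gm x y).im = -y := by simp [gm]

lemma gm_cont (x : ℝ) : Continuous (gm x) := by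
  unfold gm
  fun_prop

lemma gm_d (x y : ℝ) : HasDerivAt (gm x) (-I) y := by
  have h1 : HasDerivAt (fun y : ℝ => (y : ℂ) * I) (1 * I) y :=
    (Complex.ofRealCLM.hasDerivAt (x := y)).mul_const I
  have h2 := h1.const_sub (x : ℂ)
  rw [one_mul] at h2
  exact h2

lemma cone_closed (t r : ℝ) : IsClosed (cone t r) := by
  unfold cone
  have h1 : Continuous fun w : ℂ => -w.im := Complex.continuous_im.neg
  have h2 : Continuous fun w : ℂ => |w.re - t| := (Complex.continuous_re.sub continuous_const).abs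
  exact (isClosed_le continuous_const h1).inter ((isClosed_le h1 continuous_const).inter
    (isClosed_le h2 (continuous_const.mul h1)))

/-- the discs lie in the cone -/
lemma disc_sub {t r x₀ y : ℝ} (hr : 0 < r) (hx : |x₀ - t| ≤ r / 2) (hy : r / 2 ≤ y) (hy1 : y ≤ 1)
    {w : ℂ} (hw : ‖w - gm x₀ y‖ ≤ y / 4) : w ∈ cone t r := by
  have h1 : |w.re - x₀| ≤ y / 4 := by
    have := (Complex.abs_re_le_norm (w - gm x₀ y)).trans hw
    rwa [Complex.sub_re, gm_re] at this
  have h2 : |w.im + y| ≤ y / 4 := by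
    have := (Complex.abs_im_le_norm (w - gm x₀ y)).trans hw
    rwa [Complex.sub_im, gm_im, sub_neg_eq_add] at this
  obtain ⟨a1, a2⟩ := abs_le.1 h1
  obtain ⟨b1, b2⟩ := abs_le.1 h2
  obtain ⟨c1, c2⟩ := abs_le.1 hx
  refine ⟨by linarith, by linarith, ?_⟩
  rw [abs_le]
  constructor <;> linarith

/-- the integral over the heights -/
lemma heights {v : ℝ} (hv : 0 < v) (S : Set ℝ)
    (hS : ∀ y ∈ S, 4 / 5 * v ≤ y ∧ y ≤ 4 / 3 * v) :
    ∫⁻ y in S, ENNReal.ofReal (64 / y ^ 3) ≤ ENNReal.ofReal (67 / v ^ 2) := by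
  have h1 : ∫⁻ y in S, ENNReal.ofReal (64 / y ^ 3) ≤ ∫⁻ _y in S, ENNReal.ofReal (125 / v ^ 3) := by
    apply setLIntegral_mono measurable_const
    intro y hy
    obtain ⟨h2, -⟩ := hS y hy
    apply ENNReal.ofReal_le_ofReal
    have hy0 : 0 < y := by linarith [mul_pos (show (0 : ℝ) < 4 / 5 by norm_num) hv]
    rw [div_le_div_iff₀ (by positivity) (by positivity)]
    have h3 : (4 / 5 * v) ^ 3 ≤ y ^ 3 := by gcongr
    nlinarith
  refine h1.trans ?_
  rw [setLIntegral_const]
  have h2 : volume S ≤ ENNReal.ofReal (8 / 15 * v) := by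
    have h3 : S ⊆ Icc (4 / 5 * v) (4 / 3 * v) := fun y hy => hS y hy
    refine (measure_mono h3).trans ?_
    rw [Real.volume_Icc]
    apply ENNReal.ofReal_le_ofReal
    linarith
  calc ENNReal.ofReal (125 / v ^ 3) * volume S
      ≤ ENNReal.ofReal (125 / v ^ 3) * ENNReal.ofReal (8 / 15 * v) := by gcongr
    _ = ENNReal.ofReal (125 / v ^ 3 * (8 / 15 * v)) := (ENNReal.ofReal_mul (by positivity)).symm
    _ ≤ ENNReal.ofReal (67 / v ^ 2) := by
        apply ENNReal.ofReal_le_ofReal
        have e : 125 / v ^ 3 * (8 / 15 * v) = (200 / 3) / v ^ 2 := by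
          field_simp
          norm_num
        rw [e]
        apply div_le_div_of_nonneg_right _ (by positivity)
        norm_num

theorem cone_proof : S_CONEA → S_CONE := by
  intro hA
  refine ⟨67, by norm_num, ?_⟩
  intro G t r A hr hr4 hA0 hG hGA z hz
  -- the point
  obtain ⟨x₀, hx₀⟩ : ∃ x₀ : ℝ, x₀ = z.re := ⟨_, rfl⟩
  obtain ⟨y₀, hy₀⟩ : ∃ y₀ : ℝ, y₀ = -z.im := ⟨_, rfl⟩
  have hzg : z = gm x₀ y₀ := by
    apply Complex.ext
    · rw [gm_re, hx₀]
    · rw [gm_im, hy₀, neg_neg]
  have hx : |x₀ - t| ≤ r / 2 := by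
    have := (Complex.abs_re_le_norm _).trans hz
    rw [hx₀]
    simpa using this
  have hy : |z.im + r| ≤ r / 2 := by
    have := (Complex.abs_im_le_norm _).trans hz
    simpa using this
  obtain ⟨b1, b2⟩ := abs_le.1 hy
  have hy1 : r / 2 ≤ y₀ := by rw [hy₀]; linarith
  have hy2 : y₀ ≤ 1 := by rw [hy₀]; linarith
  have hy0 : 0 < y₀ := by linarith
  -- the points of the vertical segment
  have hseg : ∀ y : ℝ, y₀ ≤ y → y ≤ 1 → ∀ w : ℂ, ‖w - gm x₀ y‖ ≤ y / 4 → w ∈ cone t r :=
    fun y h1 h2 w hw => disc_sub hr hx (by linarith) h2 hw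
  have hmem : ∀ y : ℝ, y₀ ≤ y → y ≤ 1 → gm x₀ y ∈ cone t r := fun y h1 h2 =>
    hseg y h1 h2 _ (by rw [sub_self, norm_zero]; linarith)
  -- the path integral
  have hd : ∀ y ∈ uIcc y₀ 1, HasDerivAt (fun y : ℝ => G (gm x₀ y)) (deriv G (gm x₀ y) * (-I)) y := by
    intro y hy
    rw [uIcc_of_le hy2] at hy
    have h1 := (hG _ (hmem y hy.1 hy.2)).differentiableAt.hasDerivAt
    exact h1.comp_of_eq y (gm_d x₀ y) rfl
  have hcont : ContinuousOn (fun y : ℝ => deriv G (gm x₀ y) * (-I)) (uIcc y₀ 1) := by
    intro y hy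
    rw [uIcc_of_le hy2] at hy
    have h1 : ContinuousAt (deriv G) (gm x₀ y) := (hG _ (hmem y hy.1 hy.2)).deriv.continuousAt
    have h2 : ContinuousAt (fun y : ℝ => deriv G (gm x₀ y)) y :=
      ContinuousAt.comp (f := gm x₀) (g := deriv G) h1 (gm_cont x₀).continuousAt
    exact (h2.mul continuousAt_const).continuousWithinAt
  have hftc := intervalIntegral.integral_eq_sub_of_hasDerivAt hd hcont.intervalIntegrable
  have hGz : G z = G (gm x₀ 1) - ∫ y in y₀..1, deriv G (gm x₀ y) * (-I) := by
    rw [hftc, hzg]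
    ring
  have hG1 : ‖G (gm x₀ 1)‖ ≤ A := by
    have h1 := hGA x₀ (by linarith)
    have h2 : gm x₀ 1 = (x₀ : ℂ) - I := by simp [gm]
    rw [h2]
    exact h1
  have hnorm : ENNReal.ofReal ‖G z‖ ≤ ENNReal.ofReal A +
      ∫⁻ y in Ioc y₀ 1, ENNReal.ofReal ‖deriv G (gm x₀ y)‖ := by
    have h1 : ‖G z‖ ≤ A + ‖∫ y in y₀..1, deriv G (gm x₀ y) * (-I)‖ := by
      rw [hGz]
      exact (norm_sub_le _ _).trans (add_le_add hG1 le_rfl)
    refine (ENNReal.ofReal_le_ofReal h1).trans ?_
    rw [ENNReal.ofReal_add hA0 (norm_nonneg _)]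
    gcongr
    rw [intervalIntegral.integral_of_le hy2, ofReal_norm]
    refine (enorm_integral_le_lintegral_enorm _).trans (le_of_eq ?_)
    refine lintegral_congr fun y => ?_
    rw [← ofReal_norm, norm_mul, norm_neg, norm_I, mul_one]
  refine hnorm.trans ?_
  gcongr
  -- the measurable majorant
  classical
  obtain ⟨h, hh⟩ : ∃ h : ℂ → ENNReal, h = (cone t r).piecewise
      (fun w => ENNReal.ofReal |(G w).im|) (fun _ => 0) := ⟨_, rfl⟩
  have hW : MeasurableSet (cone t r) := (cone_closed t r).measurableSet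
  have hhm : Measurable h := by
    rw [hh]
    refine ContinuousOn.measurable_piecewise ?_ continuousOn_const hW
    intro w hw
    have h1 : ContinuousAt G w := (hG w hw).continuousAt
    have h2 : ContinuousAt (fun w => |(G w).im|) w :=
      (Complex.continuous_im.continuousAt.comp h1).abs
    exact (ENNReal.continuous_ofReal.continuousAt.comp h2).continuousWithinAt
  have hhW : ∀ w ∈ cone t r, h w = ENNReal.ofReal |(G w).im| := fun w hw => by
    rw [hh, piecewise_eq_of_mem _ _ _ hw]
  have hhW' : ∀ w ∉ cone t r, h w = 0 := fun w hw => by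
    rw [hh, piecewise_eq_of_notMem _ _ _ hw]
  obtain ⟨K, hK⟩ : ∃ K : Set (ℝ × ℂ), K = {p | ‖p.2 - gm x₀ p.1‖ ≤ p.1 / 4} := ⟨_, rfl⟩
  have hKm : MeasurableSet K := by
    rw [hK]
    have h1 := gm_cont x₀
    have h2 : Continuous fun p : ℝ × ℂ => ‖p.2 - gm x₀ p.1‖ :=
      (continuous_snd.sub (h1.comp continuous_fst)).norm
    exact (isClosed_le h2 (continuous_fst.div_const 4)).measurableSet
  obtain ⟨F, hF⟩ : ∃ F : ℝ → ℂ → ENNReal, F = fun y w =>
      ENNReal.ofReal (64 / y ^ 3) * (K.indicator (fun _ => (1 : ENNReal)) (y, w) * h w) := ⟨_, rfl⟩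
  have hFm : Measurable (Function.uncurry F) := by
    rw [hF]
    have h1 : Measurable fun p : ℝ × ℂ => ENNReal.ofReal (64 / p.1 ^ 3) :=
      ENNReal.measurable_ofReal.comp ((measurable_fst.pow_const 3).const_div 64)
    have h2 : Measurable fun p : ℝ × ℂ => K.indicator (fun _ => (1 : ENNReal)) p :=
      measurable_const.indicator hKm
    have h3 : Measurable fun p : ℝ × ℂ => h p.2 := hhm.comp measurable_snd
    exact h1.mul (h2.mul h3)
  -- the mean value inequality
  have hstep : ∀ y ∈ Ioc y₀ 1, ENNReal.ofReal ‖deriv G (gm x₀ y)‖ ≤ ∫⁻ w, F y w := by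
    intro y hy
    have hyp : 0 < y := by linarith [hy.1]
    have h1 := hA G (gm x₀ y) (y / 4) (by positivity)
      (fun w hw => hG w (hseg y hy.1.le hy.2 w hw))
    have h2 : ENNReal.ofReal ‖deriv G (gm x₀ y)‖ =
        ENNReal.ofReal (64 / y ^ 3) * ENNReal.ofReal (‖deriv G (gm x₀ y)‖ * (y / 4) ^ 3) := by
      rw [← ENNReal.ofReal_mul (by positivity)]
      congr 1
      field_simp
      norm_num
    have h3 : ∫⁻ w in closedBall (gm x₀ y) (y / 4), ENNReal.ofReal |(G w).im| =
        ∫⁻ w, K.indicator (fun _ => (1 : ENNReal)) (y, w) * h w := by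
      rw [← lintegral_indicator measurableSet_closedBall]
      refine lintegral_congr fun w => ?_
      by_cases hw : w ∈ closedBall (gm x₀ y) (y / 4)
      · have hw' : ‖w - gm x₀ y‖ ≤ y / 4 := by rwa [mem_closedBall, dist_eq_norm] at hw
        have hwK : (y, w) ∈ K := by rw [hK]; exact hw'
        rw [indicator_of_mem hw, indicator_of_mem hwK, one_mul,
          hhW w (hseg y hy.1.le hy.2 w hw')]
      · have hwK : (y, w) ∉ K := by
          rw [hK]
          intro hc
          exact hw (by rw [mem_closedBall, dist_eq_norm]; exact hc)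
        rw [indicator_of_notMem hw, indicator_of_notMem hwK, zero_mul]
    rw [h2, hF]
    simp only
    rw [lintegral_const_mul' _ _ ENNReal.ofReal_ne_top, ← h3]
    gcongr
  calc ∫⁻ y in Ioc y₀ 1, ENNReal.ofReal ‖deriv G (gm x₀ y)‖
      ≤ ∫⁻ y in Ioc y₀ 1, ∫⁻ w, F y w := by
        apply setLIntegral_mono' measurableSet_Ioc
        exact hstep
    _ = ∫⁻ w, ∫⁻ y in Ioc y₀ 1, F y w :=
        lintegral_lintegral_swap hFm.aemeasurable
    _ ≤ ∫⁻ w, ENNReal.ofReal 67 *
          (cone t r).indicator (fun w => ENNReal.ofReal (|(G w).im| / w.im ^ 2)) w := by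
        apply lintegral_mono
        intro w
        simp only
        by_cases hw : w ∈ cone t r
        · rw [indicator_of_mem hw]
          have hv : 0 < -w.im := by
            have := hw.1
            linarith
          have h1 : ∀ y ∈ Ioc y₀ 1, F y w ≤ {y : ℝ | (y, w) ∈ K}.indicator
              (fun y => ENNReal.ofReal (64 / y ^ 3)) y * h w := by
            intro y _
            rw [hF]
            simp only
            by_cases hy : (y, w) ∈ K
            · rw [indicator_of_mem hy, one_mul,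
                indicator_of_mem (show y ∈ {y : ℝ | (y, w) ∈ K} from hy)]
            · rw [indicator_of_notMem hy, zero_mul, mul_zero]
              exact zero_le
          have hSm : MeasurableSet {y : ℝ | (y, w) ∈ K} :=
            (measurable_id.prodMk measurable_const) hKm
          have h2 : ∀ y ∈ {y : ℝ | (y, w) ∈ K}, 4 / 5 * (-w.im) ≤ y ∧ y ≤ 4 / 3 * (-w.im) := by
            intro y hy
            have hy' : ‖w - gm x₀ y‖ ≤ y / 4 := by
              have : (y, w) ∈ K := hy
              rw [hK] at this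
              exact this
            have h3 := (Complex.abs_im_le_norm (w - gm x₀ y)).trans hy'
            rw [Complex.sub_im, gm_im, sub_neg_eq_add] at h3
            obtain ⟨c1, c2⟩ := abs_le.1 h3
            constructor <;> linarith
          calc ∫⁻ y in Ioc y₀ 1, F y w
              ≤ ∫⁻ y in Ioc y₀ 1, {y : ℝ | (y, w) ∈ K}.indicator
                  (fun y => ENNReal.ofReal (64 / y ^ 3)) y * h w :=
                setLIntegral_mono' measurableSet_Ioc h1
            _ ≤ ∫⁻ y, {y : ℝ | (y, w) ∈ K}.indicator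
                  (fun y => ENNReal.ofReal (64 / y ^ 3)) y * h w := setLIntegral_le_lintegral _ _
            _ = (∫⁻ y in {y : ℝ | (y, w) ∈ K}, ENNReal.ofReal (64 / y ^ 3)) * h w := by
                rw [lintegral_mul_const _ ?_, lintegral_indicator hSm]
                exact (ENNReal.measurable_ofReal.comp
                  ((measurable_id.pow_const 3).const_div 64)).indicator hSm
            _ ≤ ENNReal.ofReal (67 / (-w.im) ^ 2) * h w := by
                gcongr
                exact heights hv _ h2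
            _ = ENNReal.ofReal 67 * ENNReal.ofReal (|(G w).im| / w.im ^ 2) := by
                rw [hhW w hw, ← ENNReal.ofReal_mul (by positivity),
                  ← ENNReal.ofReal_mul (by norm_num), neg_sq]
                congr 1
                ring
        · rw [indicator_of_notMem hw, mul_zero]
          have h1 : ∀ y, F y w = 0 := by
            intro y
            rw [hF]
            simp only
            rw [hhW' w hw, mul_zero, mul_zero]
          simp only [h1, lintegral_zero, le_refl]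
    _ = ENNReal.ofReal 67 * ∫⁻ w in cone t r, ENNReal.ofReal (|(G w).im| / w.im ^ 2) := by
        rw [lintegral_const_mul' _ _ ENNReal.ofReal_ne_top, lintegral_indicator hW]

end Pool.Agent.H980.GA
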